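import Pool.Agent.H.MP_d5a689_co.C

namespace Pool.Agent.Results.MP_d5a689_co.Q1

open Pool.Agent.H.MP_537c9d_co Pool.Agent.H.MP_d5a689_co

theorem result : {k : ℕ | 2 ≤ k ∧ {s : List ℕ | IsWCS k s}.ncard = 2}.Infinite :=
  Set.infinite_of_forall_exists_gt fun K => by
    obtain ⟨k, a, b, c, d⟩ := goodk (K + 1)
    exact ⟨k, ⟨by omega, two b c d⟩, a⟩

end Pool.Agent.Results.MP_d5a689_co.Q1
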